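import Mathlib
import Pool.Agent.Helper292.ForceCH
import Pool.Agent.V11242.QC.Base

/-!
# Under the continuum hypothesis there is a space `X` with `C_p(X)` separable and Fréchet–Urysohn
but not hereditarily separable
-/

set_option autoImplicit false

namespace Pool.Agent.V11242.MT

open Set Filter Topology Pool.Agent.Helper292.ForceCH

/-- The space of continuous real functions on `X` with the topology of pointwise convergence. -/
abbrev Cp (X : Type) [TopologicalSpace X] : Type := {f : X → ℝ // Continuous f}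

/-- The Fréchet–Urysohn property. -/
def IsFU (Y : Type) [TopologicalSpace Y] : Prop :=
  ∀ (A : Set Y) (y : Y), y ∈ closure A → ∃ u : ℕ → Y, (∀ n, u n ∈ A) ∧ Tendsto u atTop (𝓝 y)

/-- Every subspace is separable. -/
def IsHerSep (Y : Type) [TopologicalSpace Y] : Prop :=
  ∀ S : Set Y, TopologicalSpace.SeparableSpace S

/-! ### The space of the family `𝒜` -/

/-- The points of the space of the family `𝒜`. -/
def MX (𝒜 : Set (Set ℕ)) : Type := {y : Set ℕ // y ∈ 𝒜}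

variable {𝒜 : Set (Set ℕ)}

instance : TopologicalSpace (MX 𝒜) where
  IsOpen W := ∀ y ∈ W, y.1.Finite → ∃ m : ℕ, ∀ z : MX 𝒜, (∀ j < m, j ∈ z.1 ↔ j ∈ y.1) → z ∈ W
  isOpen_univ := fun _ _ _ => ⟨0, fun _ _ => trivial⟩
  isOpen_inter := by
    intro U V hU hV y hy hf
    obtain ⟨m, h⟩ := hU y hy.1 hf
    obtain ⟨m', h'⟩ := hV y hy.2 hf
    exact ⟨max m m', fun z hz => ⟨h z fun j hj => hz j (hj.trans_le (le_max_left _ _)),
      h' z fun j hj => hz j (hj.trans_le (le_max_right _ _))⟩⟩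
  isOpen_sUnion := by
    intro 𝒰 h𝒰 y hy hf
    obtain ⟨U, hU, hyU⟩ := hy
    obtain ⟨m, h⟩ := h𝒰 U hU y hyU hf
    exact ⟨m, fun z hz => ⟨U, hU, h z hz⟩⟩

theorem isOpen_iff {W : Set (MX 𝒜)} : IsOpen W ↔
    ∀ y ∈ W, y.1.Finite → ∃ m : ℕ, ∀ z : MX 𝒜, (∀ j < m, j ∈ z.1 ↔ j ∈ y.1) → z ∈ W := Iff.rfl

/-- the basic clopen sets -/
def Ag (𝒜 : Set (Set ℕ)) (s : Set ℕ) (m : ℕ) : Set (MX 𝒜) := {z | ∀ j < m, j ∈ z.1 ↔ j ∈ s}

theorem isClopen_Ag (s : Set ℕ) (m : ℕ) : IsClopen (Ag 𝒜 s m) := by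
  constructor
  · refine ⟨?_⟩
    rw [isOpen_iff]
    intro y hy _
    exact ⟨m, fun z hz h => hy fun j hj => (hz j hj).symm.trans (h j hj)⟩
  · rw [isOpen_iff]
    intro y hy _
    exact ⟨m, fun z hz j hj => (hz j hj).trans (hy j hj)⟩

theorem exists_diff {y z : Set ℕ} (h : y ≠ z) : ∃ j, ¬ (j ∈ y ↔ j ∈ z) := by
  by_contra hcon
  push Not at hcon
  exact h (Set.ext hcon)

theorem isClopen_singleton (y : MX 𝒜) (hy : ¬ y.1.Finite) : IsClopen ({y} : Set (MX 𝒜)) := by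
  constructor
  · refine ⟨?_⟩
    rw [isOpen_iff]
    intro z hz _
    have hne : z.1 ≠ y.1 := fun h => hz (Subtype.ext h)
    obtain ⟨j, hj⟩ := exists_diff hne
    refine ⟨j + 1, fun w hw h => hj ?_⟩
    rw [mem_singleton_iff] at h
    rw [← h]
    exact (hw j (Nat.lt_succ_self j)).symm
  · rw [isOpen_iff]
    intro z hz hf
    rw [mem_singleton_iff] at hz
    rw [hz] at hf
    exact absurd hf hy

theorem clopen_base (y : MX 𝒜) (W : Set (MX 𝒜)) (hW : IsOpen W) (hy : y ∈ W) :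
    ∃ V, IsClopen V ∧ y ∈ V ∧ V ⊆ W := by
  by_cases hf : y.1.Finite
  · obtain ⟨m, hm⟩ := isOpen_iff.1 hW y hy hf
    exact ⟨Ag 𝒜 y.1 m, isClopen_Ag _ _, fun _ _ => Iff.rfl, fun z hz => hm z hz⟩
  · refine ⟨{y}, isClopen_singleton y hf, rfl, ?_⟩
    rintro _ rfl
    exact hy

theorem continuous_ite_clopen {X : Type} [TopologicalSpace X] {V : Set X} [DecidablePred (· ∈ V)]
    (hV : IsClopen V) {Y : Type} [TopologicalSpace Y] (a b : Y) :
    Continuous fun y => if y ∈ V then a else b := by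
  refine Continuous.if ?_ continuous_const continuous_const
  intro x hx
  have h1 : frontier {x | x ∈ V} = ∅ := hV.frontier_eq
  rw [h1] at hx
  exact absurd hx (notMem_empty x)

instance : T35Space (MX 𝒜) := by
  classical
  have h1 : T2Space (MX 𝒜) := by
    refine ⟨fun y z hne => ?_⟩
    obtain ⟨j, hj⟩ := exists_diff (fun h => hne (Subtype.ext h) : y.1 ≠ z.1)
    refine ⟨Ag 𝒜 y.1 (j + 1), (Ag 𝒜 y.1 (j + 1))ᶜ, (isClopen_Ag _ _).isOpen,
      (isClopen_Ag _ _).compl.isOpen, fun _ _ => Iff.rfl, fun h => hj ?_, disjoint_compl_right⟩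
    exact (h j (Nat.lt_succ_self j)).symm
  have h2 : CompletelyRegularSpace (MX 𝒜) := by
    refine ⟨fun y K hK hy => ?_⟩
    obtain ⟨V, hV, hyV, hVK⟩ := clopen_base y Kᶜ hK.isOpen_compl hy
    refine ⟨fun z => if z ∈ V then 0 else 1, continuous_ite_clopen hV _ _, if_pos hyV, ?_⟩
    intro z hz
    have : z ∉ V := fun h => hVK h hz
    exact if_neg this
  exact { }

/-! ### Closures in `C_p(X)` -/

section Cp

variable {X : Type} [TopologicalSpace X]

theorem exists_of_mem_closure {A : Set (Cp X)} {f : Cp X} (h : f ∈ closure A) (F : Finset X)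
    {ε : ℝ} (hε : 0 < ε) : ∃ g ∈ A, ∀ x ∈ F, |g.1 x - f.1 x| < ε := by
  have h1 : IsOpen (⋂ x ∈ F, {g : Cp X | |g.1 x - f.1 x| < ε}) := by
    refine isOpen_biInter_finset fun x _ => ?_
    refine isOpen_lt ?_ continuous_const
    exact (((continuous_apply x).comp continuous_subtype_val).sub continuous_const).abs
  obtain ⟨g, hg, hgA⟩ := mem_closure_iff.1 h _ h1 (by
    simp only [mem_iInter, mem_ofPred_eq]
    intro x _
    rw [sub_self, abs_zero]
    exact hε)
  exact ⟨g, hgA, fun x hx => by simpa using mem_iInter₂.1 hg x hx⟩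

theorem mem_closure_of_exists {A : Set (Cp X)} {f : Cp X}
    (h : ∀ (F : Finset X) (ε : ℝ), 0 < ε → ∃ g ∈ A, ∀ x ∈ F, |g.1 x - f.1 x| < ε) :
    f ∈ closure A := by
  rw [closure_subtype, mem_closure_iff]
  intro O hO hfO
  obtain ⟨F, u, hu, hu'⟩ := isOpen_pi_iff.1 hO _ hfO
  have h1 : ∀ x ∈ F, ∃ ε : ℝ, 0 < ε ∧ Metric.ball (f.1 x) ε ⊆ u x := fun x hx =>
    Metric.isOpen_iff.1 (hu x hx).1 _ (hu x hx).2
  choose! ε hε hε' using h1
  obtain ⟨δ, hδ, hδ'⟩ : ∃ δ : ℝ, 0 < δ ∧ ∀ x ∈ F, δ ≤ ε x := by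
    rcases F.eq_empty_or_nonempty with rfl | hne
    · exact ⟨1, one_pos, fun x hx => absurd hx (Finset.notMem_empty x)⟩
    · obtain ⟨x, hx, hx'⟩ := F.exists_min_image ε hne
      exact ⟨ε x, hε x hx, hx'⟩
  obtain ⟨g, hg, hg'⟩ := h F δ hδ
  refine ⟨g.1, hu' fun x hx => hε' x hx ?_, ⟨g, hg, rfl⟩⟩
  rw [Metric.mem_ball, Real.dist_eq]
  exact (hg' x hx).trans_le (hδ' x hx)

theorem tendsto_of {u : ℕ → Cp X} {f : Cp X}
    (h : ∀ x, ∃ m : ℕ, ∀ n, m ≤ n → |(u n).1 x - f.1 x| < 1 / ((n : ℝ) + 1)) :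
    Tendsto u atTop (𝓝 f) := by
  rw [tendsto_subtype_rng, tendsto_pi_nhds]
  intro x
  obtain ⟨m, hm⟩ := h x
  rw [Metric.tendsto_atTop]
  intro ε hε
  obtain ⟨k, hk⟩ := exists_nat_one_div_lt hε
  refine ⟨max m k, fun n hn => ?_⟩
  rw [Real.dist_eq]
  refine (hm n ((le_max_left _ _).trans hn)).trans (lt_of_le_of_lt ?_ hk)
  have h2 : k ≤ n := (le_max_right _ _).trans hn
  gcongr

/-- The selection property which gives the Fréchet–Urysohn property. -/
def Sel (X : Type) [TopologicalSpace X] : Prop :=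
  ∀ 𝒰 : ℕ → Set (Set X), (∀ n, ∀ U ∈ 𝒰 n, IsOpen U) →
    (∀ n, ∀ F : Finset X, ∃ U ∈ 𝒰 n, (F : Set X) ⊆ U) →
    ∃ (n : ℕ → ℕ) (U : ℕ → Set X), (∀ k, k ≤ n k ∧ U k ∈ 𝒰 (n k)) ∧
      ∀ y, ∃ m, ∀ k, m ≤ k → y ∈ U k

theorem fu_of_sel (h : Sel X) : IsFU (Cp X) := by
  intro A f hf
  have h1 := h (fun n => {U | ∃ g ∈ A, U = {x | |g.1 x - f.1 x| < 1 / ((n : ℝ) + 1)}}) ?_ ?_
  · obtain ⟨n, U, hU, hy⟩ := h1
    have h2 : ∀ k, ∃ g ∈ A, U k = {x | |g.1 x - f.1 x| < 1 / (((n k : ℕ) : ℝ) + 1)} :=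
      fun k => (hU k).2
    choose g hgA hg using h2
    refine ⟨g, hgA, tendsto_of fun x => ?_⟩
    obtain ⟨m, hm⟩ := hy x
    refine ⟨m, fun k hk => ?_⟩
    have h3 := hm k hk
    rw [hg k] at h3
    refine lt_of_lt_of_le (show |(g k).1 x - f.1 x| < 1 / (((n k : ℕ) : ℝ) + 1) from h3) ?_
    have h4 := (hU k).1
    gcongr
  · rintro n _ ⟨g, -, rfl⟩
    exact isOpen_lt ((g.2.sub f.2).abs) continuous_const
  · intro n F
    obtain ⟨g, hg, hgF⟩ := exists_of_mem_closure hf F (ε := 1 / ((n : ℝ) + 1)) (by positivity)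
    exact ⟨_, ⟨g, hg, rfl⟩, fun x hx => hgF x hx⟩

end Cp

/-! ### Separability -/

/-- the trace on `{0, …, N - 1}` -/
def trc (N : ℕ) (y : Set ℕ) : Fin N → Prop := fun i => i.1 ∈ y

theorem continuous_trc {N : ℕ} (φ : (Fin N → Prop) → ℝ) :
    Continuous fun y : MX 𝒜 => φ (trc N y.1) := by
  rw [continuous_def]
  intro s _
  rw [isOpen_iff]
  intro y hy _
  refine ⟨N, fun z hz => ?_⟩
  have h1 : trc N z.1 = trc N y.1 := funext fun i => propext (hz i.1 i.2)
  show φ (trc N z.1) ∈ s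
  rw [h1]
  exact hy

theorem separable : TopologicalSpace.SeparableSpace (Cp (MX 𝒜)) := by
  classical
  let D : Set (Cp (MX 𝒜)) := range fun p : Σ N : ℕ, ((Fin N → Prop) → ℚ) =>
    (⟨fun y : MX 𝒜 => ((p.2 (trc p.1 y.1) : ℚ) : ℝ), continuous_trc (fun t => ((p.2 t : ℚ) : ℝ))⟩ :
      Cp (MX 𝒜))
  refine ⟨D, countable_range _, fun f => mem_closure_of_exists fun F ε hε => ?_⟩
  -- the traces on `N` separate the points of `F`
  obtain ⟨N, hN⟩ : ∃ N : ℕ, ∀ y ∈ F, ∀ z ∈ F, trc N y.1 = trc N z.1 → y = z := by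
    have h1 : ∀ p : MX 𝒜 × MX 𝒜, ∃ j, p.1 ≠ p.2 → ¬ (j ∈ p.1.1 ↔ j ∈ p.2.1) := by
      intro p
      by_cases hp : p.1 = p.2
      · exact ⟨0, fun h => absurd hp h⟩
      · obtain ⟨j, hj⟩ := exists_diff (fun h => hp (Subtype.ext h) : p.1.1 ≠ p.2.1)
        exact ⟨j, fun _ => hj⟩
    choose j hj using h1
    refine ⟨(F ×ˢ F).sup j + 1, fun y hy z hz h => ?_⟩
    by_contra hne
    have h2 : j (y, z) < (F ×ˢ F).sup j + 1 :=
      Nat.lt_succ_of_le (Finset.le_sup (f := j) (Finset.mem_product.2 ⟨hy, hz⟩))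
    exact hj (y, z) hne (iff_of_eq (congrFun h ⟨_, h2⟩))
  have h2 : ∀ y : MX 𝒜, ∃ q : ℚ, |(q : ℝ) - f.1 y| < ε := by
    intro y
    obtain ⟨q, hq1, hq2⟩ := exists_rat_btwn (show f.1 y - ε < f.1 y by linarith)
    refine ⟨q, ?_⟩
    rw [abs_lt]
    constructor <;> linarith
  choose q hq using h2
  let φ : (Fin N → Prop) → ℚ := fun t => if h : ∃ y ∈ F, trc N y.1 = t then q h.choose else 0
  refine ⟨_, ⟨⟨N, φ⟩, rfl⟩, fun y hy => ?_⟩
  have h3 : ∃ z ∈ F, trc N z.1 = trc N y.1 := ⟨y, hy, rfl⟩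
  have h4 : h3.choose = y := hN _ h3.choose_spec.1 _ hy h3.choose_spec.2
  have h5 : φ (trc N y.1) = q y := by
    show (if h : ∃ z ∈ F, trc N z.1 = trc N y.1 then q h.choose else 0) = q y
    rw [dif_pos h3, h4]
  show |((φ (trc N y.1) : ℚ) : ℝ) - f.1 y| < ε
  rw [h5]
  exact hq y

/-! ### Failure of hereditary separability -/

open Classical in
/-- the characteristic function of an isolated point -/
noncomputable def chi (y : {y : MX 𝒜 // ¬ y.1.Finite}) : Cp (MX 𝒜) :=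
  ⟨fun z => if z ∈ ({y.1} : Set (MX 𝒜)) then 1 else 0,
    continuous_ite_clopen (isClopen_singleton y.1 y.2) _ _⟩

theorem chi_self (y : {y : MX 𝒜 // ¬ y.1.Finite}) : (chi y).1 y.1 = 1 := if_pos rfl

theorem eq_of_chi {y z : {y : MX 𝒜 // ¬ y.1.Finite}} (h : 0 < (chi z).1 y.1) : y = z := by
  by_contra hne
  have h1 : (chi z).1 y.1 = 0 := if_neg fun h => hne (Subtype.ext h)
  rw [h1] at h
  exact lt_irrefl _ h

theorem not_herSep (h : ¬ {y : MX 𝒜 | ¬ y.1.Finite}.Countable) : ¬ IsHerSep (Cp (MX 𝒜)) := by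
  intro hs
  obtain ⟨D, hD, hDd⟩ := (hs (range (chi (𝒜 := 𝒜)))).exists_countable_dense
  apply h
  have h1 : ∀ y : {y : MX 𝒜 // ¬ y.1.Finite}, (⟨chi y, mem_range_self y⟩ : range (chi (𝒜 := 𝒜))) ∈ D := by
    intro y
    have h2 : IsOpen {g : range (chi (𝒜 := 𝒜)) | 0 < g.1.1 y.1} :=
      isOpen_lt continuous_const
        ((continuous_apply y.1).comp (continuous_subtype_val.comp continuous_subtype_val))
    obtain ⟨g, hg, hgD⟩ := hDd.inter_open_nonempty _ h2 ⟨⟨chi y, mem_range_self y⟩, by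
      show 0 < (chi y).1 y.1
      rw [chi_self]
      exact one_pos⟩
    obtain ⟨⟨g, z, rfl⟩, hg'⟩ : ∃ g' : range (chi (𝒜 := 𝒜)), g' = g := ⟨g, rfl⟩
    rw [← hg'] at hg hgD
    have h3 : y = z := eq_of_chi hg
    subst h3
    exact hgD
  have h4 : Countable {y : MX 𝒜 // ¬ y.1.Finite} := by
    have := hD.to_subtype
    refine Function.Injective.countable (f := fun y => (⟨_, h1 y⟩ : D)) fun y z hyz => ?_
    have h5 : chi y = chi z := congrArg (fun w => w.1.1) hyz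
    refine eq_of_chi ?_
    rw [← h5, chi_self]
    exact one_pos
  exact h4

/-! ### The tower -/

theorem exists_rec {I : Type*} [LinearOrder I] [WellFoundedLT I] {X : Type*} [Inhabited X]
    (Phi : I → (I → X) → X → Prop)
    (hloc : ∀ i (D D' : I → X) x, (∀ j, j < i → D j = D' j) → Phi i D x → Phi i D' x)
    (hex : ∀ i D, ∃ x, Phi i D x) : ∃ D : I → X, ∀ i, Phi i D (D i) := by
  classical
  let step : (i : I) → ((j : I) → j < i → X) → X := fun i D =>
    Classical.choose (hex i (fun j => if h : j < i then D j h else default))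
  let D : I → X := WellFounded.fix (wellFounded_lt (α := I)) step
  refine ⟨D, fun i => ?_⟩
  have h1 : D i = step i (fun j _ => D j) := WellFounded.fix_eq _ _ _
  have h2 : Phi i (fun j => if h : j < i then D j else default) (step i (fun j _ => D j)) :=
    Classical.choose_spec (hex i (fun j => if h : j < i then D j else default))
  rw [← h1] at h2
  refine hloc i _ _ _ ?_ h2
  intro j hj
  simp [hj]

/-- `x` skips the interval from `n` to `g n` for infinitely many `n`. -/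
def Skips (x : Set ℕ) (g : ℕ → ℕ) : Prop := ∀ m, ∃ n, m ≤ n ∧ ∀ j ∈ x, ¬ (n < j ∧ j < g n)

theorem step_lemma (y : ℕ → Set ℕ) (b : ℕ → ℕ → ℕ)
    (h : ∀ k, {c | ∀ i ≤ k, c ∈ y i}.Infinite) :
    ∃ x : Set ℕ, x.Infinite ∧ (∀ i, (x \ y i).Finite) ∧ ∀ i, Skips x (b i) := by
  have h1 : ∀ k m : ℕ, ∃ c, m < c ∧ (∀ i ≤ k, c ∈ y i) ∧ ∀ i ≤ k, b i m ≤ c := by
    intro k m
    obtain ⟨c, hc, hc'⟩ := (h k).exists_gt (max m ((Finset.range (k + 1)).sup fun i => b i m))
    refine ⟨c, (le_max_left _ _).trans_lt hc', hc, fun i hi => ?_⟩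
    refine le_trans ?_ ((le_max_right _ _).trans_lt hc').le
    exact Finset.le_sup (f := fun i => b i m) (Finset.mem_range.2 (Nat.lt_succ_of_le hi))
  choose f hf1 hf2 hf3 using h1
  obtain ⟨c, hc⟩ : ∃ c : ℕ → ℕ, ∀ k, c (k + 1) = f (k + 1) (c k) :=
    ⟨fun k => Nat.rec (motive := fun _ => ℕ) 0 (fun k z => f (k + 1) z) k, fun _ => rfl⟩
  have hmono : StrictMono c := strictMono_nat_of_lt_succ fun k => by
    rw [hc]
    exact hf1 _ _
  refine ⟨range c, infinite_range_of_injective hmono.injective, fun i => ?_, fun i m => ?_⟩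
  · refine ((finite_Iic i).image c).subset ?_
    rintro _ ⟨⟨k, rfl⟩, hk⟩
    by_contra hcon
    apply hk
    have h2 : i < k := by
      by_contra h3
      exact hcon ⟨k, not_lt.1 h3, rfl⟩
    obtain ⟨l, rfl⟩ : ∃ l, k = l + 1 := ⟨k - 1, by omega⟩
    rw [hc]
    exact hf2 _ _ i h2.le
  · refine ⟨c (max i m), (le_max_right _ _).trans hmono.le_apply, ?_⟩
    rintro _ ⟨k, rfl⟩ ⟨h2, h3⟩
    have h4 : max i m < k := hmono.lt_iff_lt.1 h2
    have h5 : c (max i m + 1) ≤ c k := hmono.monotone h4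
    have h6 : b i (c (max i m)) ≤ c (max i m + 1) := by
      rw [hc]
      exact hf3 _ _ i ((le_max_left _ _).trans (Nat.le_succ _))
    omega

theorem exists_tower (e : Om → ℕ → ℕ) : ∃ x : Om → Set ℕ, (∀ a, (x a).Infinite) ∧
    (∀ a b, a < b → (x b \ x a).Finite) ∧ ∀ a b, a < b → Skips (x b) (e a) := by
  let Phi : Om → (Om → Set ℕ) → Set ℕ → Prop := fun i D x =>
    ((∀ a < i, (D a).Infinite) ∧ ∀ b < i, ∀ a < b, (D b \ D a).Finite) →
      x.Infinite ∧ ∀ a < i, (x \ D a).Finite ∧ Skips x (e a)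
  obtain ⟨x, hx⟩ := exists_rec Phi (by
    intro i D D' x hD h hi
    refine (fun h => ⟨h.1, fun a ha => ?_⟩ : (x.Infinite ∧ ∀ a < i, (x \ D a).Finite ∧
      Skips x (e a)) → (x.Infinite ∧ ∀ a < i, (x \ D' a).Finite ∧ Skips x (e a))) (h ⟨?_, ?_⟩)
    · rw [← hD a ha]
      exact h.2 a ha
    · intro a ha
      rw [hD a ha]
      exact hi.1 a ha
    · intro b hb a ha
      rw [hD b hb, hD a (ha.trans hb)]
      exact hi.2 b hb a ha) (by
    intro i D
    by_cases hi : (∀ a < i, (D a).Infinite) ∧ ∀ b < i, ∀ a < b, (D b \ D a).Finite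
    swap
    · exact ⟨∅, fun h => absurd h hi⟩
    obtain ⟨h1, h2⟩ := hi
    -- enumerate
    have hc : (insert ((univ : Set ℕ), (id : ℕ → ℕ)) ((fun a => (D a, e a)) '' Iio i)).Countable := by
      refine Countable.insert _ (Countable.image ?_ _)
      exact (countable_Iio i : Countable {b : Om // b < i})
    obtain ⟨s, hs⟩ := hc.exists_eq_range ⟨_, mem_insert _ _⟩
    have hs' : ∀ k, s k = ((univ : Set ℕ), (id : ℕ → ℕ)) ∨ ∃ a < i, s k = (D a, e a) := by
      intro k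
      have h3 : s k ∈ insert ((univ : Set ℕ), (id : ℕ → ℕ)) ((fun a => (D a, e a)) '' Iio i) := by
        rw [hs]
        exact mem_range_self k
      rcases h3 with h3 | ⟨a, ha, h3⟩
      · exact Or.inl h3
      · exact Or.inr ⟨a, ha, h3.symm⟩
    -- a pseudointersection of finitely many of them
    have h3 : ∀ k, ∃ z : Set ℕ, z.Infinite ∧ (∀ l ≤ k, (z \ (s l).1).Finite) ∧
        (z = univ ∨ ∃ a < i, z = D a) := by
      intro k
      induction k with
      | zero =>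
        rcases hs' 0 with h | ⟨a, ha, h⟩
        · refine ⟨univ, infinite_univ, fun l hl => ?_, Or.inl rfl⟩
          obtain rfl := Nat.le_zero.1 hl
          rw [h]
          simp
        · refine ⟨D a, h1 a ha, fun l hl => ?_, Or.inr ⟨a, ha, rfl⟩⟩
          obtain rfl := Nat.le_zero.1 hl
          rw [h]
          simp
      | succ k ih =>
        obtain ⟨z, hz1, hz2, hz3⟩ := ih
        rcases hs' (k + 1) with h | ⟨a, ha, h⟩
        · refine ⟨z, hz1, fun l hl => ?_, hz3⟩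
          rcases Nat.lt_or_ge l (k + 1) with hl' | hl'
          · exact hz2 l (Nat.lt_succ_iff.1 hl')
          · obtain rfl := le_antisymm hl hl'
            rw [h]
            simp
        · rcases hz3 with rfl | ⟨b, hb, rfl⟩
          · refine ⟨D a, h1 a ha, fun l hl => ?_, Or.inr ⟨a, ha, rfl⟩⟩
            rcases Nat.lt_or_ge l (k + 1) with hl' | hl'
            · exact (hz2 l (Nat.lt_succ_iff.1 hl')).subset (sdiff_subset_sdiff_left (subset_univ _))
            · obtain rfl := le_antisymm hl hl'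
              rw [h]
              simp
          · rcases lt_trichotomy a b with hab | rfl | hab
            · refine ⟨D b, hz1, fun l hl => ?_, Or.inr ⟨b, hb, rfl⟩⟩
              rcases Nat.lt_or_ge l (k + 1) with hl' | hl'
              · exact hz2 l (Nat.lt_succ_iff.1 hl')
              · obtain rfl := le_antisymm hl hl'
                rw [h]
                exact h2 b hb a hab
            · refine ⟨D a, hz1, fun l hl => ?_, Or.inr ⟨a, hb, rfl⟩⟩
              rcases Nat.lt_or_ge l (k + 1) with hl' | hl'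
              · exact hz2 l (Nat.lt_succ_iff.1 hl')
              · obtain rfl := le_antisymm hl hl'
                rw [h]
                simp
            · refine ⟨D a, h1 a ha, fun l hl => ?_, Or.inr ⟨a, ha, rfl⟩⟩
              rcases Nat.lt_or_ge l (k + 1) with hl' | hl'
              · refine ((hz2 l (Nat.lt_succ_iff.1 hl')).union (h2 a ha b hab)).subset ?_
                rintro j ⟨hj, hj'⟩
                by_cases hjb : j ∈ D b
                · exact Or.inl ⟨hjb, hj'⟩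
                · exact Or.inr ⟨hj, hjb⟩
              · obtain rfl := le_antisymm hl hl'
                rw [h]
                simp
    have h4 : ∀ k, {c | ∀ l ≤ k, c ∈ (s l).1}.Infinite := by
      intro k
      obtain ⟨z, hz1, hz2, -⟩ := h3 k
      intro hfin
      apply hz1
      refine (hfin.union ((finite_Iic k).biUnion fun l hl => hz2 l hl)).subset ?_
      intro j hj
      by_cases hj' : ∀ l ≤ k, j ∈ (s l).1
      · exact Or.inl hj'
      · push Not at hj'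
        obtain ⟨l, hl, hjl⟩ := hj'
        exact Or.inr (mem_iUnion₂.2 ⟨l, hl, hj, hjl⟩)
    obtain ⟨x, hx1, hx2, hx3⟩ := step_lemma (fun k => (s k).1) (fun k => (s k).2) h4
    refine ⟨x, fun _ => ⟨hx1, fun a ha => ?_⟩⟩
    have h5 : (D a, e a) ∈ range s := by
      rw [← hs]
      exact Or.inr ⟨a, ha, rfl⟩
    obtain ⟨k, hk⟩ := h5
    have h6 := hx2 k
    have h7 := hx3 k
    rw [hk] at h6 h7
    exact ⟨h6, h7⟩)
  have key : ∀ i, (x i).Infinite ∧ ∀ a < i, (x i \ x a).Finite ∧ Skips (x i) (e a) := by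
    intro i
    induction i using WellFoundedLT.induction with
    | ind i ih => exact hx i ⟨fun a ha => (ih a ha).1, fun b hb a ha => ((ih b hb).2 a ha).1⟩
  exact ⟨x, fun a => (key a).1, fun a b h => ((key b).2 a h).1, fun a b h => ((key b).2 a h).2⟩

/-! ### The selection property -/

theorem uncountable_Om : ¬ (univ : Set Om).Countable := by
  intro h
  have h1 : Cardinal.mk Om ≤ Cardinal.aleph0 := by
    rw [← Cardinal.le_aleph0_iff_set_countable, Cardinal.mk_univ] at h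
    exact h
  rw [Cardinal.mk_ord_toType] at h1
  exact absurd h1 (not_le.2 Cardinal.aleph0_lt_aleph_one)

theorem sel_of (e : Om → ℕ → ℕ) (he : Function.Surjective e) (x : Om → Set ℕ)
    (htow : ∀ a b, a < b → (x b \ x a).Finite) (hskip : ∀ a b, a < b → Skips (x b) (e a))
    (hx : ∀ a, x a ∈ 𝒜) (hfin : ∀ s : Set ℕ, s.Finite → s ∈ 𝒜)
    (h𝒜 : ∀ y ∈ 𝒜, y.Finite ∨ ∃ a, y = x a) : Sel (MX 𝒜) := by
  classical
  intro 𝒰 hopen hω
  let pt : Om → MX 𝒜 := fun a => ⟨x a, hx a⟩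
  have h1 : ∀ (G : Finset Om) (c : ℕ), ∃ U ∈ 𝒰 c, ∃ b : ℕ, (∀ a ∈ G, pt a ∈ U) ∧
      ∀ y : MX 𝒜, (∀ j ∈ y.1, ¬ (c < j ∧ j < b)) → y ∈ U := by
    intro G c
    obtain ⟨U, hU, hFU⟩ := hω c ((Finset.range (c + 1)).powerset.image
      (fun s : Finset ℕ => (⟨(s : Set ℕ), hfin _ s.finite_toSet⟩ : MX 𝒜)) ∪ G.image pt)
    have h2 : ∀ s ∈ (Finset.range (c + 1)).powerset, ∃ m : ℕ, ∀ z : MX 𝒜,
        (∀ j < m, j ∈ z.1 ↔ j ∈ (s : Set ℕ)) → z ∈ U := by
      intro s hs
      exact isOpen_iff.1 (hopen c U hU) ⟨(s : Set ℕ), hfin _ s.finite_toSet⟩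
        (hFU (Finset.mem_coe.2 (Finset.mem_union_left _ (Finset.mem_image.2 ⟨s, hs, rfl⟩))))
        s.finite_toSet
    choose! m hm using h2
    refine ⟨U, hU, (Finset.range (c + 1)).powerset.sup m, fun a ha =>
      hFU (Finset.mem_coe.2 (Finset.mem_union_right _ (Finset.mem_image_of_mem _ ha))), fun y hy => ?_⟩
    have h3 : (Finset.range (c + 1)).filter (fun j => j ∈ y.1) ∈ (Finset.range (c + 1)).powerset :=
      Finset.mem_powerset.2 (Finset.filter_subset _ _)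
    refine hm _ h3 y fun j hj => ?_
    have h4 : j < (Finset.range (c + 1)).powerset.sup m := hj.trans_le (Finset.le_sup h3)
    rw [Finset.mem_coe, Finset.mem_filter, Finset.mem_range]
    exact ⟨fun h => ⟨by
      by_contra h5
      exact hy j h ⟨by omega, h4⟩, h⟩, fun h => h.2⟩
  choose Uf hUf g hgG hg using h1
  have h2 : ∀ G, ∃ a, e a = g G := fun G => he _
  choose idx hidx using h2
  obtain ⟨r⟩ : Nonempty Om := by
    by_contra hcon
    rw [not_nonempty_iff] at hcon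
    exact uncountable_Om (Set.to_countable _)
  obtain ⟨Y, F, -, hrY, hYc, hYJ, hYF⟩ := QC.diagonal (σ := Finset Om) r ∅ countable_empty
    (fun _ F => F) (fun s => insert (idx s) (⋃ a ∈ s, Iio a)) (fun s => Countable.insert _
      (Countable.biUnion s.countable_toSet fun a _ => (countable_Iio a : Countable {b : Om // b < a})))
  have hdown : ∀ a ∈ Y, ∀ b < a, b ∈ Y := by
    intro a ha b hb
    obtain ⟨m, hm⟩ := hYF a ha
    exact hYJ m (Or.inr (mem_iUnion₂.2 ⟨a, hm m le_rfl, hb⟩))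
  have hne : ∃ a, a ∉ Y := by
    by_contra hcon
    push Not at hcon
    exact uncountable_Om (hYc.mono fun a _ => hcon a)
  obtain ⟨γ, hγ, hγmin⟩ := WellFounded.has_min (wellFounded_lt (α := Om)) {a | a ∉ Y} hne
  have hlt : ∀ a ∈ Y, a < γ := by
    intro a ha
    rcases lt_trichotomy a γ with h | rfl | h
    · exact h
    · exact absurd ha hγ
    · exact absurd (hdown a ha γ h) hγ
  have hmem : ∀ a < γ, a ∈ Y := by
    intro a ha
    by_contra hcon
    exact hγmin a hcon ha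
  have h3 : ∀ k, ∃ n, k ≤ n ∧ ∀ j ∈ x γ, ¬ (n < j ∧ j < g (F k) n) := by
    intro k
    rw [← hidx (F k)]
    exact hskip _ _ (hlt _ (hYJ k (Or.inl rfl))) k
  choose n hn hn' using h3
  refine ⟨n, fun k => Uf (F k) (n k), fun k => ⟨hn k, hUf _ _⟩, fun y => ?_⟩
  -- a general bound
  have hgen : ∀ (m : ℕ) (k : ℕ), m ≤ k → (∀ j ∈ y.1, m < j → j ∈ x γ) → y ∈ Uf (F k) (n k) := by
    intro m k hmk h
    refine hg _ _ y fun j hj hj' => ?_
    exact hn' k j (h j hj (lt_of_le_of_lt (hmk.trans (hn k)) hj'.1)) hj'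
  rcases h𝒜 y.1 y.2 with hf | ⟨a, ha⟩
  · obtain ⟨m, hm⟩ := hf.bddAbove
    exact ⟨m, fun k hk => hgen m k hk fun j hj hj' => absurd (hm hj) (not_le.2 hj')⟩
  · rcases lt_trichotomy a γ with h | rfl | h
    · obtain ⟨m, hm⟩ := hYF a (hmem a h)
      refine ⟨m, fun k hk => ?_⟩
      have h4 : y = pt a := Subtype.ext ha
      rw [h4]
      exact hgG _ _ a (hm k hk)
    · exact ⟨0, fun k _ => hgen 0 k (Nat.zero_le _) fun j hj _ => by rwa [ha] at hj⟩
    · obtain ⟨m, hm⟩ := (htow γ a h).bddAbove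
      refine ⟨m, fun k hk => hgen m k hk fun j hj hj' => ?_⟩
      by_contra hcon
      rw [ha] at hj
      exact absurd (hm ⟨hj, hcon⟩) (not_le.2 hj')

theorem uncountable_of (e : Om → ℕ → ℕ) (he : Function.Surjective e) (x : Om → Set ℕ)
    (hinf : ∀ a, (x a).Infinite) (hskip : ∀ a b, a < b → Skips (x b) (e a))
    (hx : ∀ a, x a ∈ 𝒜) : ¬ {y : MX 𝒜 | ¬ y.1.Finite}.Countable := by
  intro hc
  apply uncountable_Om
  have h1 : (univ : Set Om) ⊆ ⋃ y ∈ {y : MX 𝒜 | ¬ y.1.Finite}, {a | x a = y.1} := by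
    intro a _
    exact mem_iUnion₂.2 ⟨⟨x a, hx a⟩, hinf a, rfl⟩
  refine Countable.mono h1 (hc.biUnion fun y hy => ?_)
  have h2 : ∀ n, ∃ j ∈ y.1, n < j := fun n => Set.Infinite.exists_gt hy n
  choose f hf hf' using h2
  obtain ⟨d, hd⟩ := he fun n => f n + 1
  have h3 : {a | x a = y.1} ⊆ insert d (Iio d) := by
    intro a ha
    rcases lt_trichotomy a d with h | h | h
    · exact Or.inr h
    · exact Or.inl h
    · obtain ⟨n, -, hn⟩ := hskip d a h 0
      rw [hd, show x a = y.1 from ha] at hn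
      exact absurd ⟨hf' n, Nat.lt_succ_self _⟩ (hn (f n) (hf n))
  exact Countable.mono h3 (Countable.insert _ (countable_Iio d : Countable {b : Om // b < d}))

/-- Under the continuum hypothesis there is a space as required. -/
theorem main (hCH : Cardinal.continuum.{0} = Cardinal.aleph 1) :
    ∃ (X : Type) (_ : TopologicalSpace X), T35Space X ∧
      TopologicalSpace.SeparableSpace (Cp X) ∧ IsFU (Cp X) ∧ ¬ IsHerSep (Cp X) := by
  obtain ⟨e, he⟩ : ∃ e : Om → ℕ → ℕ, Function.Surjective e := by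
    have h1 : Cardinal.mk (ℕ → ℕ) = Cardinal.mk Om := by
      rw [Cardinal.mk_ord_toType, ← hCH]
      simp
    obtain ⟨f⟩ := Cardinal.eq.1 h1
    exact ⟨f.symm, f.symm.surjective⟩
  obtain ⟨x, h1, h2, h3⟩ := exists_tower e
  let 𝒜 : Set (Set ℕ) := {y | y.Finite ∨ ∃ a, y = x a}
  have hx : ∀ a, x a ∈ 𝒜 := fun a => Or.inr ⟨a, rfl⟩
  exact ⟨MX 𝒜, inferInstance, inferInstance, separable,
    fu_of_sel (sel_of e he x h2 h3 hx (fun s hs => Or.inl hs) (fun y hy => hy)),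
    not_herSep (uncountable_of e he x h1 h3 hx)⟩

end Pool.Agent.V11242.MT
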